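import Mathlib

/-!
# Uniqueness up to scaling for the power-bias fixed point equation

Fix `w > 0` and a probability distribution `ψ` on the positive integers. We prove that any two
solutions of `L(X) = L(V_w X^(ψ))`, with `V_w` a `Beta(w,1)` variable independent of `X^(ψ)`,
are scaled versions of each other.

Sketch. Let `μ, ν` be two solutions, scaled so that they have the same `k₀`-th moment for one `k₀`
with `ψ k₀ ≠ 0`. Let `D = F_μ - F_ν` and `E = {D > 0}`. The fixed point equation gives the identity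
`E[X h'(X)] = w (E h(X^(ψ)) - E h(X))`. With `h = θ(D)`, `θ` increasing, the difference of the two
identities is `∫ x θ'(D) (D')^2 dx ≥ 0`, so that the power-biased law of `ν` gives `E` at most the
mass that the power-biased law of `μ` gives it. On the other hand for every single `k` the
`k`-power-biased law of `ν` gives `E` at least the mass that the one of `μ` gives it. So all these
are equalities, and the one for `k₀` forces `D ≤ 0`. By symmetry `D = 0`.
-/

open MeasureTheory Set Filter Topology ProbabilityTheory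
open scoped ENNReal NNReal

namespace Pool.Agent.Results.MP_ec0ea5_pr.Uniqueness

/-- The `ψ`-power-bias law of `μ`: the mixture, with weights `ψ k`, of the `k`-power-biased laws
`x ^ k / (∫ y ^ k dμ) dμ(x)`. -/
noncomputable def powerBias (ψ : PMF ℕ+) (μ : Measure ℝ) : Measure ℝ :=
  Measure.sum fun k : ℕ+ =>
    ψ k • μ.withDensity (fun x => ENNReal.ofReal (x ^ (k : ℕ) / ∫ y, y ^ (k : ℕ) ∂μ))

/-- `μ` is a solution of the fixed point equation for `(w, ψ)`: it is the law of a positive random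
variable `X` with `E X ^ k < ∞` whenever `ψ k > 0`, and it equals the law of `V * Y` with
`V ~ Beta(w,1)` and `Y` of the `ψ`-power-bias law of `μ`, independent. -/
structure IsSolution (w : ℝ) (ψ : PMF ℕ+) (μ : Measure ℝ) : Prop where
  prob : IsProbabilityMeasure μ
  pos : ∀ᵐ x ∂μ, 0 < x
  mom : ∀ k : ℕ+, ψ k ≠ 0 → Integrable (fun x : ℝ => x ^ (k : ℕ)) μ
  fixed : μ = ((betaMeasure w 1).prod (powerBias ψ μ)).map (fun q => q.1 * q.2)

lemma betaMeasure_eq {w : ℝ} (hw : 0 < w) :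
    betaMeasure w 1 = (volume.restrict (Ioo (0:ℝ) 1)).withDensity
      (fun v => ENNReal.ofReal (w * v ^ (w - 1))) := by
  have hb : beta w 1 = 1 / w := by
    unfold beta
    rw [Real.Gamma_add_one hw.ne', Real.Gamma_one]
    have := (Real.Gamma_pos_of_pos hw).ne'
    field_simp
  rw [← withDensity_indicator measurableSet_Ioo, betaMeasure]
  congr 1
  ext v
  rw [betaPDF_eq, hb]
  by_cases hv : 0 < v ∧ v < 1
  · rw [if_pos hv, Set.indicator_of_mem (show v ∈ Ioo (0:ℝ) 1 from hv)]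
    simp
  · rw [if_neg hv, Set.indicator_of_notMem (show v ∉ Ioo (0:ℝ) 1 from hv)]
    simp

lemma lintegral_beta {w : ℝ} (hw : 0 < w) (φ : ℝ → ℝ≥0∞) (hφ : Measurable φ) :
    ∫⁻ v, φ v ∂(betaMeasure w 1) = ∫⁻ v in Ioo (0:ℝ) 1, ENNReal.ofReal (w * v ^ (w - 1)) * φ v := by
  rw [betaMeasure_eq hw, lintegral_withDensity_eq_lintegral_mul _ (by fun_prop) hφ]
  rfl

lemma lintegral_beta_scale {w : ℝ} (hw : 0 < w) (φ : ℝ → ℝ≥0∞) (hφ : Measurable φ) {y : ℝ} (hy : 0 < y) :
    ∫⁻ v, φ (v * y) ∂(betaMeasure w 1) =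
      ∫⁻ x in Ioo (0:ℝ) y, φ x * ENNReal.ofReal (w * x ^ (w - 1)) * ENNReal.ofReal (y ^ (-w)) := by
  rw [lintegral_beta hw _ (by fun_prop)]
  conv_rhs => rw [← lintegral_indicator measurableSet_Ioo, ← Real.smul_map_volume_mul_right hy.ne']
  rw [lintegral_smul_measure, lintegral_map (by
    apply Measurable.indicator _ measurableSet_Ioo
    fun_prop) (by fun_prop), smul_eq_mul, ← lintegral_const_mul _ (by
    have : Measurable (fun v : ℝ => v * y) := by fun_prop
    refine Measurable.comp (g := (Ioo 0 y).indicator fun x => φ x * ENNReal.ofReal (w * x ^ (w - 1)) * ENNReal.ofReal (y ^ (-w))) ?_ this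
    apply Measurable.indicator _ measurableSet_Ioo
    fun_prop)]
  rw [← lintegral_indicator measurableSet_Ioo]
  congr 1
  ext v
  by_cases hv : v ∈ Ioo (0:ℝ) 1
  · have hv' : v * y ∈ Ioo 0 y := ⟨mul_pos hv.1 hy, by nlinarith [hv.2]⟩
    rw [Set.indicator_of_mem hv, Set.indicator_of_mem hv']
    have h1 : ENNReal.ofReal (w * v ^ (w - 1)) =
        ENNReal.ofReal |y| * (ENNReal.ofReal (w * (v * y) ^ (w - 1)) * ENNReal.ofReal (y ^ (-w))) := by
      have hv0 := hv.1
      rw [← ENNReal.ofReal_mul (by positivity), ← ENNReal.ofReal_mul (abs_nonneg _), abs_of_pos hy,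
        Real.mul_rpow hv.1.le hy.le]
      congr 1
      have : y * (y ^ (w - 1) * y ^ (-w)) = 1 := by
        rw [← Real.rpow_add hy]
        nth_rewrite 1 [← Real.rpow_one y]
        rw [← Real.rpow_add hy]
        ring_nf
        simp
      calc w * v ^ (w - 1) = w * v ^ (w - 1) * 1 := by ring
        _ = w * v ^ (w - 1) * (y * (y ^ (w - 1) * y ^ (-w))) := by rw [this]
        _ = _ := by ring
    rw [h1]
    ring
  · have hv' : v * y ∉ Ioo 0 y := by
      intro h
      apply hv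
      refine ⟨?_, ?_⟩
      · by_contra h0
        push Not at h0
        have := h.1
        nlinarith
      · by_contra h0
        push Not at h0
        have := h.2
        nlinarith
    rw [Set.indicator_of_notMem hv, Set.indicator_of_notMem hv']
    simp


/-- density of the law of `V * Y`. -/
lemma lintegral_law {w : ℝ} (hw : 0 < w) (π : Measure ℝ) [IsProbabilityMeasure π]
    (hπ : ∀ᵐ y ∂π, 0 < y) (φ : ℝ → ℝ≥0∞) (hφ : Measurable φ) :
    ∫⁻ x, φ x ∂(((betaMeasure w 1).prod π).map (fun q : ℝ × ℝ => q.1 * q.2)) =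
      ∫⁻ x in Ioi (0:ℝ), (ENNReal.ofReal (w * x ^ (w - 1)) *
        ∫⁻ y in Ioi x, ENNReal.ofReal (y ^ (-w)) ∂π) * φ x := by
  have := isProbabilityMeasureBeta hw one_pos
  rw [lintegral_map hφ (by fun_prop), lintegral_prod_symm _ (by fun_prop)]
  have h1 : ∫⁻ y, ∫⁻ x, φ (x * y) ∂(betaMeasure w 1) ∂π =
      ∫⁻ y, (∫⁻ x in Ioi (0:ℝ), (Ioi x).indicator (fun y => φ x * ENNReal.ofReal (w * x ^ (w - 1)) *
        ENNReal.ofReal (y ^ (-w))) y) ∂π := by
    refine lintegral_congr_ae ?_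
    filter_upwards [hπ] with y hy
    rw [lintegral_beta_scale hw φ hφ hy]
    rw [← lintegral_indicator measurableSet_Ioo, ← lintegral_indicator measurableSet_Ioi]
    congr 1
    ext x
    by_cases hx : 0 < x
    · by_cases hxy : x < y
      · rw [indicator_of_mem (show x ∈ Ioo 0 y from ⟨hx, hxy⟩),
          indicator_of_mem (show x ∈ Ioi 0 from hx), indicator_of_mem (show y ∈ Ioi x from hxy)]
      · rw [indicator_of_notMem (show x ∉ Ioo 0 y from fun h => hxy h.2),
          indicator_of_mem (show x ∈ Ioi 0 from hx), indicator_of_notMem (show y ∉ Ioi x from hxy)]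
    · rw [indicator_of_notMem (show x ∉ Ioo 0 y from fun h => hx h.1),
          indicator_of_notMem (show x ∉ Ioi 0 from hx)]
  rw [h1, lintegral_lintegral_swap]
  · refine lintegral_congr fun x => ?_

    rw [lintegral_indicator measurableSet_Ioi, lintegral_const_mul _ (by fun_prop)]
    ring
  · have h2 : (Function.uncurry fun (y x : ℝ) => (Ioi x).indicator (fun y => φ x * ENNReal.ofReal (w * x ^ (w - 1)) *
        ENNReal.ofReal (y ^ (-w))) y) = ({q : ℝ × ℝ | q.2 < q.1}).indicator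
        (fun q => φ q.2 * ENNReal.ofReal (w * q.2 ^ (w - 1)) * ENNReal.ofReal (q.1 ^ (-w))) := by
      ext ⟨y, x⟩
      rfl
    rw [h2]
    apply Measurable.aemeasurable
    apply Measurable.indicator
    · fun_prop
    · exact measurableSet_lt measurable_snd measurable_fst


/-- tail function -/
noncomputable def tailFn (w : ℝ) (π : Measure ℝ) (x : ℝ) : ℝ := ∫ y in Ioi x, y ^ (-w) ∂π

/-- density -/
noncomputable def dens (w : ℝ) (π : Measure ℝ) (x : ℝ) : ℝ := w * x ^ (w - 1) * tailFn w π x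

lemma rpow_neg_le {w : ℝ} (hw : 0 < w) {x y : ℝ} (hx : 0 < x) (hxy : x ≤ y) :
    y ^ (-w) ≤ x ^ (-w) := Real.rpow_le_rpow_of_nonpos hx hxy (by linarith)

lemma integrableOn_tail {w : ℝ} (hw : 0 < w) (π : Measure ℝ) [IsProbabilityMeasure π]
    {x : ℝ} (hx : 0 < x) : IntegrableOn (fun y : ℝ => y ^ (-w)) (Ioi x) π := by
  refine Measure.integrableOn_of_bounded (M := x ^ (-w)) (measure_ne_top _ _) (by fun_prop) ?_
  filter_upwards [ae_restrict_mem measurableSet_Ioi] with y hy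
  have hy' : x < y := hy
  rw [Real.norm_of_nonneg (Real.rpow_nonneg (hx.trans hy').le _)]
  exact rpow_neg_le hw hx hy'.le

lemma tailFn_nonneg {w : ℝ} (π : Measure ℝ) {x : ℝ} (hx : 0 ≤ x) :
    0 ≤ tailFn w π x := by
  refine setIntegral_nonneg measurableSet_Ioi fun y hy => ?_
  exact Real.rpow_nonneg (hx.trans (le_of_lt hy)) _

lemma tailFn_le {w : ℝ} (hw : 0 < w) (π : Measure ℝ) [IsProbabilityMeasure π]
    {x : ℝ} (hx : 0 < x) : tailFn w π x ≤ x ^ (-w) := by
  have h1 : tailFn w π x ≤ ∫ y in Ioi x, x ^ (-w) ∂π := by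
    refine setIntegral_mono_on (integrableOn_tail hw π hx) ?_ measurableSet_Ioi ?_
    · exact integrable_const _
    · intro y hy
      exact rpow_neg_le hw hx (le_of_lt hy)
  refine h1.trans ?_
  rw [setIntegral_const, smul_eq_mul]
  have : π.real (Ioi x) ≤ 1 := measureReal_le_one
  have h0 : 0 ≤ x ^ (-w) := Real.rpow_nonneg hx.le _
  nlinarith

lemma dens_nonneg {w : ℝ} (hw : 0 < w) (π : Measure ℝ) {x : ℝ} (hx : 0 ≤ x) :
    0 ≤ dens w π x := by
  have := tailFn_nonneg (w := w) π hx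
  unfold dens
  positivity

lemma mul_dens_le {w : ℝ} (hw : 0 < w) (π : Measure ℝ) [IsProbabilityMeasure π]
    {x : ℝ} (hx : 0 < x) : x * dens w π x ≤ w := by
  have h1 := tailFn_le hw π hx
  unfold dens
  have h2 : x * (w * x ^ (w - 1) * tailFn w π x) = w * (x ^ w * tailFn w π x) := by
    have : x ^ w = x ^ (w - 1) * x := by
      rw [← Real.rpow_add_one hx.ne']
      ring_nf
    rw [this]; ring
  rw [h2]
  have h3 : x ^ w * tailFn w π x ≤ x ^ w * x ^ (-w) :=
    mul_le_mul_of_nonneg_left h1 (Real.rpow_nonneg hx.le _)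
  rw [← Real.rpow_add hx] at h3
  simp at h3
  nlinarith

lemma continuousAt_tailFn {w : ℝ} (hw : 0 < w) (π : Measure ℝ) [IsProbabilityMeasure π] [NullSingletonClass π]
    {x : ℝ} (hx : 0 < x) : ContinuousAt (tailFn w π) x := by
  have h1 : tailFn w π = fun x => ∫ y, (Ioi x).indicator (fun y => y ^ (-w)) y ∂π := by
    ext x
    rw [integral_indicator measurableSet_Ioi]
    rfl
  rw [h1]
  refine continuousAt_of_dominated (bound := fun _ => (x / 2) ^ (-w)) ?_ ?_ ?_ ?_
  · refine Eventually.of_forall fun z => ?_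
    exact (Measurable.indicator (by fun_prop) measurableSet_Ioi).aestronglyMeasurable
  · filter_upwards [Ioi_mem_nhds (show x / 2 < x by linarith)] with z hz
    refine Eventually.of_forall fun y => ?_
    by_cases hy : z < y
    · rw [indicator_of_mem (show y ∈ Ioi z from hy)]
      have hz' : x / 2 < z := hz
      rw [Real.norm_of_nonneg (Real.rpow_nonneg (by linarith) _)]
      exact rpow_neg_le hw (by linarith) (by linarith)
    · rw [indicator_of_notMem (show y ∉ Ioi z from hy)]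
      simp only [norm_zero]
      exact Real.rpow_nonneg (by linarith) _
  · exact integrable_const _
  · have : ∀ᵐ y ∂π, y ≠ x := by
      rw [ae_iff]
      simp
    filter_upwards [this] with y hy
    rcases lt_or_gt_of_ne hy with h | h
    · have h2 : (fun z : ℝ => (Ioi z).indicator (fun y : ℝ => y ^ (-w)) y) =ᶠ[𝓝 x] fun _ => 0 := by
        filter_upwards [Ioi_mem_nhds h] with z hz
        rw [indicator_of_notMem]
        intro h3
        exact absurd (lt_trans (show z < y from h3) (show y < z from hz)) (lt_irrefl _)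
      exact (continuousAt_const (y := (0:ℝ))).congr h2.symm
    · have h2 : (fun z : ℝ => (Ioi z).indicator (fun y : ℝ => y ^ (-w)) y) =ᶠ[𝓝 x] fun _ => y ^ (-w) := by
        filter_upwards [Iio_mem_nhds h] with z hz
        rw [indicator_of_mem]
        exact hz
      exact (continuousAt_const (y := y ^ (-w))).congr h2.symm

lemma continuousAt_dens {w : ℝ} (hw : 0 < w) (π : Measure ℝ) [IsProbabilityMeasure π] [NullSingletonClass π]
    {x : ℝ} (hx : 0 < x) : ContinuousAt (dens w π) x := by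
  unfold dens
  exact ((continuousAt_const.mul (Real.continuousAt_rpow_const x (w - 1) (Or.inl hx.ne')))).mul
    (continuousAt_tailFn hw π hx)

lemma lintegral_tail {w : ℝ} (hw : 0 < w) (π : Measure ℝ) [IsProbabilityMeasure π]
    {x : ℝ} (hx : 0 < x) :
    ∫⁻ y in Ioi x, ENNReal.ofReal (y ^ (-w)) ∂π = ENNReal.ofReal (tailFn w π x) := by
  unfold tailFn
  rw [ofReal_integral_eq_lintegral_ofReal (integrableOn_tail hw π hx)]
  filter_upwards [ae_restrict_mem measurableSet_Ioi] with y hy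
  exact Real.rpow_nonneg (hx.le.trans (le_of_lt hy)) _

lemma measurable_tailFn {w : ℝ} (π : Measure ℝ) [IsProbabilityMeasure π] :
    Measurable (tailFn w π) := by
  have h1 : tailFn w π = fun x => ∫ y, (Ioi x).indicator (fun y => y ^ (-w)) y ∂π := by
    ext x
    rw [integral_indicator measurableSet_Ioi]
    rfl
  rw [h1]
  refine (StronglyMeasurable.integral_prod_right (f := fun (x y : ℝ) => (Ioi x).indicator (fun y => y ^ (-w)) y) ?_).measurable
  have h2 : (Function.uncurry fun (x y : ℝ) => (Ioi x).indicator (fun y => y ^ (-w)) y) =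
      ({q : ℝ × ℝ | q.1 < q.2}).indicator (fun q => q.2 ^ (-w)) := by
    ext ⟨x, y⟩
    rfl
  rw [h2]
  apply Measurable.stronglyMeasurable
  apply Measurable.indicator
  · fun_prop
  · exact measurableSet_lt measurable_fst measurable_snd

lemma measurable_dens {w : ℝ} (π : Measure ℝ) [IsProbabilityMeasure π] :
    Measurable (dens w π) := by
  unfold dens
  have := measurable_tailFn (w := w) π
  fun_prop

/-- The law of `V * Y` has density `dens`. -/
lemma law_eq {w : ℝ} (hw : 0 < w) (π : Measure ℝ) [IsProbabilityMeasure π]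
    (hπ : ∀ᵐ y ∂π, 0 < y) :
    ((betaMeasure w 1).prod π).map (fun q : ℝ × ℝ => q.1 * q.2) =
      (volume.restrict (Ioi (0:ℝ))).withDensity (fun x => ENNReal.ofReal (dens w π x)) := by
  refine Measure.ext_of_lintegral _ fun φ hφ => ?_
  rw [lintegral_law hw π hπ φ hφ, lintegral_withDensity_eq_lintegral_mul _
    (measurable_dens π).ennreal_ofReal hφ]
  refine setLIntegral_congr_fun measurableSet_Ioi fun x hx => ?_
  have hx' : (0:ℝ) < x := hx
  simp only [Pi.mul_apply]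
  rw [lintegral_tail hw π hx', ← ENNReal.ofReal_mul (by positivity)]
  rfl


lemma integral_beta {w : ℝ} (hw : 0 < w) (φ : ℝ → ℝ) :
    ∫ v, φ v ∂(betaMeasure w 1) = ∫ v in (0:ℝ)..1, (w * v ^ (w - 1)) * φ v := by
  rw [betaMeasure_eq hw, integral_withDensity_eq_integral_toReal_smul (by fun_prop)
    (Eventually.of_forall fun x => ENNReal.ofReal_lt_top),
    intervalIntegral.integral_of_le zero_le_one, integral_Ioc_eq_integral_Ioo]
  refine setIntegral_congr_fun measurableSet_Ioo fun v hv => ?_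
  have hv0 := hv.1
  simp only [smul_eq_mul]
  rw [ENNReal.toReal_ofReal (by positivity)]

lemma stein_inner {w : ℝ} (hw : 0 < w) {h h' : ℝ → ℝ} (hm : Measurable h) (hm' : Measurable h') {C : ℝ}
    (hd : ∀ x, 0 < x → HasDerivAt h (h' x) x)
    (hb : ∀ x, 0 < x → |h x| ≤ C) (hb' : ∀ x, 0 < x → |x * h' x| ≤ C) {y : ℝ} (hy : 0 < y) :
    ∫ v, (v * y) * h' (v * y) ∂(betaMeasure w 1) =
      w * (h y - ∫ v, h (v * y) ∂(betaMeasure w 1)) := by
  rw [integral_beta hw, integral_beta hw]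
  have hC : 0 ≤ C := (abs_nonneg _).trans (hb 1 one_pos)
  have hI : IntervalIntegrable (fun v : ℝ => v ^ (w - 1)) volume 0 1 :=
    intervalIntegral.intervalIntegrable_rpow' (by linarith)
  have hI1 : IntervalIntegrable (fun v : ℝ => (w * v ^ (w - 1)) * h (v * y)) volume 0 1 := by
    rw [intervalIntegrable_iff_integrableOn_Ioo_of_le zero_le_one] at hI ⊢
    refine ((hI.const_mul w).mul_const C).mono' (by fun_prop) ?_
    filter_upwards [ae_restrict_mem measurableSet_Ioo] with v hv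
    have hv0 := hv.1
    rw [norm_mul, Real.norm_of_nonneg (by positivity : 0 ≤ w * v ^ (w-1))]
    exact mul_le_mul_of_nonneg_left (hb _ (by positivity)) (by positivity)
  have hI2 : IntervalIntegrable (fun v : ℝ => v ^ (w - 1) * ((v * y) * h' (v * y))) volume 0 1 := by
    rw [intervalIntegrable_iff_integrableOn_Ioo_of_le zero_le_one] at hI ⊢
    refine (hI.mul_const C).mono' (by fun_prop) ?_
    filter_upwards [ae_restrict_mem measurableSet_Ioo] with v hv
    have hv0 := hv.1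
    rw [norm_mul, Real.norm_of_nonneg (by positivity : 0 ≤ v ^ (w-1))]
    exact mul_le_mul_of_nonneg_left (hb' _ (by positivity)) (by positivity)
  have key : ∫ v in (0:ℝ)..1, ((w * v ^ (w - 1)) * h (v * y) + v ^ (w - 1) * ((v * y) * h' (v * y))) =
      h y - 0 := by
    refine intervalIntegral.integral_eq_sub_of_hasDerivAt_of_tendsto
      (f := fun v => v ^ w * h (v * y)) zero_lt_one ?_ (hI1.add hI2) ?_ ?_
    · intro v hv
      have hv0 := hv.1
      have h1 : HasDerivAt (fun v : ℝ => v ^ w) (w * v ^ (w - 1)) v :=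
        Real.hasDerivAt_rpow_const (Or.inl hv0.ne')
      have h2 : HasDerivAt (fun v : ℝ => h (v * y)) (h' (v * y) * y) v := by
        have h4 : HasDerivAt (fun v : ℝ => v * y) (1 * y) v := (hasDerivAt_id v).mul_const y
        exact ((hd (v * y) (by positivity)).comp v h4).congr_deriv (by ring)
      refine (h1.mul h2).congr_deriv ?_
      have : v ^ w = v ^ (w - 1) * v := by
        rw [← Real.rpow_add_one hv0.ne']
        ring_nf
      rw [this]
      ring
    · have h1 : Tendsto (fun v : ℝ => v ^ w * C) (𝓝[>] 0) (𝓝 0) := by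
        have : ContinuousAt (fun v : ℝ => v ^ w * C) 0 :=
          (Real.continuousAt_rpow_const 0 w (Or.inr hw.le)).mul continuousAt_const
        have h2 := this.tendsto
        simp only [Real.zero_rpow hw.ne', zero_mul] at h2
        exact h2.mono_left nhdsWithin_le_nhds
      refine squeeze_zero_norm' ?_ h1
      filter_upwards [self_mem_nhdsWithin] with v hv
      have hv0 : (0:ℝ) < v := hv
      rw [norm_mul, Real.norm_of_nonneg (by positivity : 0 ≤ v ^ w)]
      exact mul_le_mul_of_nonneg_left (hb _ (by positivity)) (by positivity)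
    · have h1 : ContinuousAt (fun v : ℝ => v ^ w * h (v * y)) 1 := by
        refine (Real.continuousAt_rpow_const 1 w (Or.inl one_ne_zero)).mul ?_
        have h2 : ContinuousAt h (1 * y) := (hd (1 * y) (by linarith)).continuousAt
        exact ContinuousAt.comp (f := fun v : ℝ => v * y) (g := h) h2 (by fun_prop)
      have h2 := h1.tendsto
      simp only [Real.one_rpow, one_mul] at h2
      exact h2.mono_left nhdsWithin_le_nhds
  rw [intervalIntegral.integral_add hI1 hI2] at key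
  have h3 : ∫ v in (0:ℝ)..1, (w * v ^ (w - 1)) * ((v * y) * h' (v * y)) =
      w * ∫ v in (0:ℝ)..1, v ^ (w - 1) * ((v * y) * h' (v * y)) := by
    rw [← intervalIntegral.integral_const_mul]
    congr 1
    ext v
    ring
  rw [h3]
  linear_combination w * key

lemma stein {w : ℝ} (hw : 0 < w) (π : Measure ℝ) [IsProbabilityMeasure π]
    (hπ : ∀ᵐ y ∂π, 0 < y) {h h' : ℝ → ℝ} (hm : Measurable h) (hm' : Measurable h') {C : ℝ}
    (hd : ∀ x, 0 < x → HasDerivAt h (h' x) x)
    (hb : ∀ x, 0 < x → |h x| ≤ C) (hb' : ∀ x, 0 < x → |x * h' x| ≤ C) :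
    ∫ x, x * h' x ∂(((betaMeasure w 1).prod π).map (fun q : ℝ × ℝ => q.1 * q.2)) =
      w * (∫ y, h y ∂π - ∫ x, h x ∂(((betaMeasure w 1).prod π).map (fun q : ℝ × ℝ => q.1 * q.2))) := by
  have := isProbabilityMeasureBeta hw one_pos
  have hβ : ∀ᵐ v ∂(betaMeasure w 1), 0 < v := by
    rw [betaMeasure_eq hw]
    have h1 : ∀ᵐ v ∂(volume.restrict (Ioo (0:ℝ) 1)), 0 < v := by
      filter_upwards [ae_restrict_mem measurableSet_Ioo] with v hv
      exact hv.1
    exact (withDensity_absolutelyContinuous _ _) h1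
  have hpos : ∀ᵐ q ∂((betaMeasure w 1).prod π), 0 < q.1 * q.2 := by
    have h1 : ∀ᵐ q ∂((betaMeasure w 1).prod π), 0 < q.1 :=
      Measure.quasiMeasurePreserving_fst.ae hβ
    have h2 : ∀ᵐ q ∂((betaMeasure w 1).prod π), 0 < q.2 :=
      Measure.quasiMeasurePreserving_snd.ae hπ
    filter_upwards [h1, h2] with q h3 h4
    positivity
  have hi1 : Integrable (fun q : ℝ × ℝ => (q.1 * q.2) * h' (q.1 * q.2)) ((betaMeasure w 1).prod π) := by
    refine Integrable.of_bound (C := C) (by fun_prop) ?_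
    filter_upwards [hpos] with q hq
    exact hb' _ hq
  have hi2 : Integrable (fun q : ℝ × ℝ => h (q.1 * q.2)) ((betaMeasure w 1).prod π) := by
    refine Integrable.of_bound (C := C)
      (hm.comp (measurable_fst.mul measurable_snd)).aestronglyMeasurable ?_
    filter_upwards [hpos] with q hq
    exact hb _ hq
  have hi3 : Integrable h π := by
    refine Integrable.of_bound (C := C) (by fun_prop) ?_
    filter_upwards [hπ] with q hq
    exact hb _ hq
  rw [integral_map (by fun_prop) (Measurable.aestronglyMeasurable (by fun_prop)),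
    integral_map (by fun_prop) hm.aestronglyMeasurable,
    integral_prod_symm _ hi1, integral_prod_symm _ hi2]
  have h1 : ∫ y, (∫ v, (v * y) * h' (v * y) ∂(betaMeasure w 1)) ∂π =
      ∫ y, (w * (h y - ∫ v, h (v * y) ∂(betaMeasure w 1))) ∂π := by
    refine integral_congr_ae ?_
    filter_upwards [hπ] with y hy
    exact stein_inner hw hm hm' hd hb hb' hy
  rw [h1, integral_const_mul, integral_sub hi3 hi2.integral_prod_right]


/-- `μ` is the law with density `dens w π` on `(0,∞)`. -/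
def HasDens (w : ℝ) (π μ : Measure ℝ) : Prop :=
  μ = (volume.restrict (Ioi (0:ℝ))).withDensity (fun x => ENNReal.ofReal (dens w π x))

lemma HasDens.integrableOn {w : ℝ} (hw : 0 < w) {π μ : Measure ℝ} [IsProbabilityMeasure π]
    [IsProbabilityMeasure μ] (h : HasDens w π μ) : IntegrableOn (dens w π) (Ioi 0) volume := by
  refine ⟨(measurable_dens π).aestronglyMeasurable, ?_⟩
  rw [hasFiniteIntegral_iff_ofReal]
  · have h1 : μ univ = 1 := measure_univ
    rw [h, withDensity_apply _ MeasurableSet.univ, Measure.restrict_univ] at h1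
    rw [h1]
    exact ENNReal.one_lt_top
  · filter_upwards [ae_restrict_mem measurableSet_Ioi] with x hx
    exact dens_nonneg hw π (le_of_lt hx)

lemma HasDens.setIntegral {w : ℝ} (hw : 0 < w) {π μ : Measure ℝ} [IsProbabilityMeasure π]
    [IsProbabilityMeasure μ] (h : HasDens w π μ) {s : Set ℝ} (hs : MeasurableSet s)
    (hs0 : s ⊆ Ioi 0) (φ : ℝ → ℝ) :
    ∫ x in s, φ x ∂μ = ∫ x in s, dens w π x * φ x := by
  rw [h, restrict_withDensity hs, Measure.restrict_restrict hs, inter_eq_left.mpr hs0,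
    integral_withDensity_eq_integral_toReal_smul (measurable_dens π).ennreal_ofReal
    (Eventually.of_forall fun x => ENNReal.ofReal_lt_top)]
  refine setIntegral_congr_fun hs fun x hx => ?_
  simp only [smul_eq_mul]
  rw [ENNReal.toReal_ofReal (dens_nonneg hw π (le_of_lt (hs0 hx)))]

lemma HasDens.pos {w : ℝ} {π μ : Measure ℝ} (h : HasDens w π μ) : μ (Iic 0) = 0 := by
  rw [h, withDensity_apply _ measurableSet_Iic, Measure.restrict_restrict measurableSet_Iic,
    Iic_inter_Ioi, Ioc_self, Measure.restrict_empty, lintegral_zero_measure]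

lemma HasDens.ae_pos {w : ℝ} {π μ : Measure ℝ} (h : HasDens w π μ) : ∀ᵐ x ∂μ, x ∈ Ioi (0:ℝ) := by
  rw [ae_iff]
  have : {a : ℝ | a ∉ Ioi 0} = Iic 0 := by ext; simp
  rw [this, h.pos]

lemma HasDens.integral {w : ℝ} (hw : 0 < w) {π μ : Measure ℝ} [IsProbabilityMeasure π]
    [IsProbabilityMeasure μ] (h : HasDens w π μ) (φ : ℝ → ℝ) :
    ∫ x, φ x ∂μ = ∫ x in Ioi 0, dens w π x * φ x := by
  rw [← h.setIntegral hw measurableSet_Ioi subset_rfl, Measure.restrict_eq_self_of_ae_mem h.ae_pos]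

lemma HasDens.real_Ioc {w : ℝ} (hw : 0 < w) {π μ : Measure ℝ} [IsProbabilityMeasure π]
    [IsProbabilityMeasure μ] (h : HasDens w π μ) {a b : ℝ} (ha : 0 ≤ a) (hab : a ≤ b) :
    cdf μ b - cdf μ a = ∫ x in a..b, dens w π x := by
  have h1 : μ.real (Ioc a b) = ∫ x in Ioc a b, dens w π x := by
    have h2 := h.setIntegral hw (s := Ioc a b) measurableSet_Ioc
      (fun x hx => lt_of_le_of_lt ha hx.1) (fun _ => 1)
    simpa using h2
  rw [intervalIntegral.integral_of_le hab, ← h1, cdf_eq_real, cdf_eq_real]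
  have h3 : Iic b = Iic a ∪ Ioc a b := (Iic_union_Ioc_eq_Iic hab).symm
  rw [h3, measureReal_union (by
    rw [Set.disjoint_left]
    intro x hx hx'
    exact absurd hx'.1 (not_lt.mpr hx)) measurableSet_Ioc]
  ring

lemma HasDens.hasDerivAt_cdf {w : ℝ} (hw : 0 < w) {π μ : Measure ℝ} [IsProbabilityMeasure π]
    [NullSingletonClass π]
    [IsProbabilityMeasure μ] (h : HasDens w π μ) {x : ℝ} (hx : 0 < x) :
    HasDerivAt (cdf μ) (dens w π x) x := by
  have h1 : HasDerivAt (fun z => cdf μ (x / 2) + ∫ t in (x/2)..z, dens w π t) (dens w π x) x := by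
    refine HasDerivAt.const_add _ ?_
    refine intervalIntegral.integral_hasDerivAt_right ?_ ?_ (continuousAt_dens hw π hx)
    · rw [intervalIntegrable_iff_integrableOn_Ioc_of_le (by linarith)]
      exact (h.integrableOn hw).mono_set fun t ht => lt_of_le_of_lt (by linarith) ht.1
    · exact (measurable_dens π).stronglyMeasurable.stronglyMeasurableAtFilter
  refine h1.congr_of_eventuallyEq ?_
  filter_upwards [Ioi_mem_nhds (show x / 2 < x by linarith)] with z hz
  have hz' : x / 2 < z := hz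
  rw [← h.real_Ioc hw (by linarith) hz'.le]
  ring


section two

variable {w : ℝ} {π₁ π₂ μ ν : Measure ℝ} [IsProbabilityMeasure π₁] [IsProbabilityMeasure π₂]
  [IsProbabilityMeasure μ] [IsProbabilityMeasure ν] [NullSingletonClass π₁] [NullSingletonClass π₂]

/-- difference of distribution functions -/
noncomputable def Dlt (μ ν : Measure ℝ) (x : ℝ) : ℝ := cdf μ x - cdf ν x

lemma measurable_Dlt (μ ν : Measure ℝ) : Measurable (Dlt μ ν) :=
  (monotone_cdf μ).measurable.sub (monotone_cdf ν).measurable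

lemma abs_Dlt_le (μ ν : Measure ℝ) (x : ℝ) : |Dlt μ ν x| ≤ 1 := by
  unfold Dlt
  rw [abs_le]
  constructor <;> linarith [cdf_nonneg μ x, cdf_nonneg ν x, cdf_le_one μ x, cdf_le_one ν x]

lemma tendsto_Dlt (μ ν : Measure ℝ) : Tendsto (Dlt μ ν) atTop (𝓝 0) := by
  have := (tendsto_cdf_atTop μ).sub (tendsto_cdf_atTop ν)
  rw [sub_self] at this
  exact this

lemma hasDerivAt_Dlt (hw : 0 < w) (h₁ : HasDens w π₁ μ) (h₂ : HasDens w π₂ ν) {x : ℝ} (hx : 0 < x) :
    HasDerivAt (Dlt μ ν) (dens w π₁ x - dens w π₂ x) x :=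
  (h₁.hasDerivAt_cdf hw hx).sub (h₂.hasDerivAt_cdf hw hx)

omit [IsProbabilityMeasure π₁] [IsProbabilityMeasure π₂] [NullSingletonClass π₁]
  [NullSingletonClass π₂] in
lemma Dlt_zero (h₁ : HasDens w π₁ μ) (h₂ : HasDens w π₂ ν) : Dlt μ ν 0 = 0 := by
  unfold Dlt
  rw [cdf_eq_real, cdf_eq_real]
  simp [measureReal_def, h₁.pos, h₂.pos]

lemma theta_ftc (hw : 0 < w) (h₁ : HasDens w π₁ μ) (h₂ : HasDens w π₂ ν) {θ Θ : ℝ → ℝ}
    (hΘ : ∀ s, HasDerivAt Θ (θ s) s) (hΘ0 : Θ 0 = 0) (hθ : Continuous θ)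
    (hθb : ∀ s, |θ s| ≤ 1) {a : ℝ} (ha : 0 ≤ a) :
    ∫ x in Ioi a, θ (Dlt μ ν x) ∂μ - ∫ x in Ioi a, θ (Dlt μ ν x) ∂ν = - Θ (Dlt μ ν a) := by
  have hsub : Ioi a ⊆ Ioi (0:ℝ) := Ioi_subset_Ioi ha
  have hmeas : Measurable fun x => θ (Dlt μ ν x) := hθ.measurable.comp (measurable_Dlt μ ν)
  have hi1 : IntegrableOn (fun x => dens w π₁ x * θ (Dlt μ ν x)) (Ioi a) volume := by
    refine (((h₁.integrableOn hw).mono_set hsub)).mul_bdd (c := 1)
      hmeas.aestronglyMeasurable ?_
    exact Eventually.of_forall fun x => hθb _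
  have hi2 : IntegrableOn (fun x => dens w π₂ x * θ (Dlt μ ν x)) (Ioi a) volume := by
    refine (((h₂.integrableOn hw).mono_set hsub)).mul_bdd (c := 1)
      hmeas.aestronglyMeasurable ?_
    exact Eventually.of_forall fun x => hθb _
  rw [h₁.setIntegral hw measurableSet_Ioi hsub, h₂.setIntegral hw measurableSet_Ioi hsub,
    ← integral_sub hi1 hi2]
  have hcont : Continuous Θ := continuous_iff_continuousAt.mpr fun s => (hΘ s).continuousAt
  have h3 := integral_Ioi_of_hasDerivAt_of_tendsto (f := fun x => Θ (Dlt μ ν x))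
    (f' := fun x => dens w π₁ x * θ (Dlt μ ν x) - dens w π₂ x * θ (Dlt μ ν x)) (a := a) (m := 0)
    ?_ ?_ (hi1.sub hi2) ?_
  · rw [h3]; ring
  · refine hcont.continuousAt.comp_continuousWithinAt ?_
    exact ((cdf μ).right_continuous a).sub ((cdf ν).right_continuous a)
  · intro x hx
    have hx0 : 0 < x := hsub hx
    exact ((hΘ (Dlt μ ν x)).comp x (hasDerivAt_Dlt hw h₁ h₂ hx0)).congr_deriv (by ring)
  · have := (hcont.tendsto 0).comp (tendsto_Dlt μ ν)
    rw [hΘ0] at this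
    exact this

lemma key_smooth (hw : 0 < w) (hπ₁ : ∀ᵐ y ∂π₁, 0 < y) (hπ₂ : ∀ᵐ y ∂π₂, 0 < y)
    (h₁ : HasDens w π₁ μ) (h₂ : HasDens w π₂ ν) {θ θ' : ℝ → ℝ}
    (hθd : ∀ s, HasDerivAt θ (θ' s) s) (hθ'c : Continuous θ') (hθ'0 : ∀ s, 0 ≤ θ' s)
    (hθb : ∀ s, |θ s| ≤ 1) :
    ∫ x, θ (Dlt μ ν x) ∂π₂ ≤ ∫ x, θ (Dlt μ ν x) ∂π₁ := by
  have hθc : Continuous θ := continuous_iff_continuousAt.mpr fun s => (hθd s).continuousAt
  -- antiderivative
  have hΘ : ∀ s, HasDerivAt (fun s => ∫ t in (0:ℝ)..s, θ t) (θ s) s := fun s =>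
    intervalIntegral.integral_hasDerivAt_right (hθc.intervalIntegrable _ _)
      hθc.stronglyMeasurable.stronglyMeasurableAtFilter hθc.continuousAt
  have h0 := theta_ftc hw h₁ h₂ hΘ (by simp) hθc hθb le_rfl
  rw [Dlt_zero h₁ h₂, intervalIntegral.integral_same, neg_zero,
    Measure.restrict_eq_self_of_ae_mem h₁.ae_pos, Measure.restrict_eq_self_of_ae_mem h₂.ae_pos] at h0
  -- bound on θ' on [-1,1]
  obtain ⟨C, hC⟩ := (isCompact_Icc (a := (-1:ℝ)) (b := 1)).exists_bound_of_continuousOn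
    hθ'c.continuousOn
  have hC0 : 0 ≤ C := (norm_nonneg _).trans (hC 0 (by simp))
  have hmD := measurable_Dlt μ ν
  have hm : Measurable fun x => θ (Dlt μ ν x) := hθc.measurable.comp hmD
  have hm' : Measurable fun x => θ' (Dlt μ ν x) * (dens w π₁ x - dens w π₂ x) :=
    (hθ'c.measurable.comp hmD).mul ((measurable_dens π₁).sub (measurable_dens π₂))
  have hd : ∀ x, 0 < x → HasDerivAt (fun x => θ (Dlt μ ν x))
      (θ' (Dlt μ ν x) * (dens w π₁ x - dens w π₂ x)) x := fun x hx =>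
    (hθd (Dlt μ ν x)).comp x (hasDerivAt_Dlt hw h₁ h₂ hx)
  have hb : ∀ x, 0 < x → |θ (Dlt μ ν x)| ≤ max 1 (C * w) := fun x _ =>
    (hθb _).trans (le_max_left _ _)
  have hb' : ∀ x, 0 < x → |x * (θ' (Dlt μ ν x) * (dens w π₁ x - dens w π₂ x))| ≤ max 1 (C * w) := by
    intro x hx
    refine le_trans ?_ (le_max_right _ _)
    have h3 : |θ' (Dlt μ ν x)| ≤ C := hC _ (abs_le.mp (abs_Dlt_le μ ν x))
    have h4 : |x * (dens w π₁ x - dens w π₂ x)| ≤ w := by
      have a1 := mul_dens_le hw π₁ hx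
      have a2 := mul_dens_le hw π₂ hx
      have a3 := mul_nonneg hx.le (dens_nonneg hw π₁ hx.le)
      have a4 := mul_nonneg hx.le (dens_nonneg hw π₂ hx.le)
      rw [abs_le]
      constructor <;> nlinarith
    calc |x * (θ' (Dlt μ ν x) * (dens w π₁ x - dens w π₂ x))|
        = |θ' (Dlt μ ν x)| * |x * (dens w π₁ x - dens w π₂ x)| := by
          rw [← abs_mul]; congr 1; ring
      _ ≤ C * w := mul_le_mul h3 h4 (abs_nonneg _) hC0
  have hμ : μ = ((betaMeasure w 1).prod π₁).map (fun q : ℝ × ℝ => q.1 * q.2) := by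
    rw [law_eq hw π₁ hπ₁]; exact h₁
  have hν : ν = ((betaMeasure w 1).prod π₂).map (fun q : ℝ × ℝ => q.1 * q.2) := by
    rw [law_eq hw π₂ hπ₂]; exact h₂
  have s1 := stein hw π₁ hπ₁ hm hm' hd hb hb'
  have s2 := stein hw π₂ hπ₂ hm hm' hd hb hb'
  rw [← hμ] at s1
  rw [← hν] at s2
  -- the difference of the left sides is nonnegative
  have hbdd1 : IntegrableOn (fun x => dens w π₁ x * (x * (θ' (Dlt μ ν x) * (dens w π₁ x - dens w π₂ x))))
      (Ioi 0) volume := by
    refine (h₁.integrableOn hw).mul_bdd (c := max 1 (C * w)) (by fun_prop) ?_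
    filter_upwards [ae_restrict_mem measurableSet_Ioi] with x hx
    exact hb' x hx
  have hbdd2 : IntegrableOn (fun x => dens w π₂ x * (x * (θ' (Dlt μ ν x) * (dens w π₁ x - dens w π₂ x))))
      (Ioi 0) volume := by
    refine (h₂.integrableOn hw).mul_bdd (c := max 1 (C * w)) (by fun_prop) ?_
    filter_upwards [ae_restrict_mem measurableSet_Ioi] with x hx
    exact hb' x hx
  have h5 : 0 ≤ ∫ x, x * (θ' (Dlt μ ν x) * (dens w π₁ x - dens w π₂ x)) ∂μ -
      ∫ x, x * (θ' (Dlt μ ν x) * (dens w π₁ x - dens w π₂ x)) ∂ν := by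
    rw [h₁.integral hw, h₂.integral hw, ← integral_sub hbdd1 hbdd2]
    refine setIntegral_nonneg measurableSet_Ioi fun x hx => ?_
    have hx0 : (0:ℝ) < x := hx
    have := hθ'0 (Dlt μ ν x)
    have h6 : dens w π₁ x * (x * (θ' (Dlt μ ν x) * (dens w π₁ x - dens w π₂ x))) -
        dens w π₂ x * (x * (θ' (Dlt μ ν x) * (dens w π₁ x - dens w π₂ x))) =
        x * θ' (Dlt μ ν x) * (dens w π₁ x - dens w π₂ x) ^ 2 := by ring
    rw [h6]
    positivity
  rw [s1, s2] at h5
  have h7 : 0 ≤ w * ((∫ x, θ (Dlt μ ν x) ∂π₁ - ∫ x, θ (Dlt μ ν x) ∂π₂) -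
    (∫ x, θ (Dlt μ ν x) ∂μ - ∫ x, θ (Dlt μ ν x) ∂ν)) := by linarith
  rw [h0, sub_zero] at h7
  have := nonneg_of_mul_nonneg_right h7 hw
  linarith


/-- smooth approximations of the indicator of `(0,∞)` -/
noncomputable def th (n : ℕ) (s : ℝ) : ℝ := Real.smoothTransition (n * s)

lemma th_tendsto (s : ℝ) : Tendsto (fun n : ℕ => th n s) atTop (𝓝 ((Ioi (0:ℝ)).indicator 1 s)) := by
  by_cases hs : 0 < s
  · rw [indicator_of_mem (show s ∈ Ioi (0:ℝ) from hs)]
    refine tendsto_const_nhds.congr' ?_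
    obtain ⟨N, hN⟩ := exists_nat_gt (1 / s)
    filter_upwards [eventually_ge_atTop N] with n hn
    have h1 : (N : ℝ) ≤ n := by exact_mod_cast hn
    have h2 : 1 ≤ (n : ℝ) * s := by
      have : 1 / s * s = 1 := by field_simp
      nlinarith
    simp [th, Real.smoothTransition.one_of_one_le h2]
  · rw [indicator_of_notMem (show s ∉ Ioi (0:ℝ) from hs)]
    refine tendsto_const_nhds.congr fun n => ?_
    have h2 : (n : ℝ) * s ≤ 0 := mul_nonpos_of_nonneg_of_nonpos (Nat.cast_nonneg n) (not_lt.mp hs)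
    simp [th, Real.smoothTransition.zero_of_nonpos h2]

lemma th_abs_le (n : ℕ) (s : ℝ) : |th n s| ≤ 1 := by
  unfold th
  rw [abs_of_nonneg (Real.smoothTransition.nonneg _)]
  exact Real.smoothTransition.le_one _

lemma th_continuous (n : ℕ) : Continuous (th n) :=
  Real.smoothTransition.continuous.comp (by fun_prop)

lemma th_hasDerivAt (n : ℕ) (s : ℝ) :
    HasDerivAt (th n) (n * deriv Real.smoothTransition (n * s)) s := by
  have h1 : HasDerivAt Real.smoothTransition (deriv Real.smoothTransition (n * s)) (n * s) :=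
    ((Real.smoothTransition.contDiff (n := 1)).differentiable (by norm_num) _).hasDerivAt
  have h2 : HasDerivAt (fun s : ℝ => (n : ℝ) * s) ((n : ℝ) * 1) s := (hasDerivAt_id s).const_mul _
  exact (h1.comp s h2).congr_deriv (by ring)

lemma th_deriv_continuous (n : ℕ) :
    Continuous (fun s : ℝ => n * deriv Real.smoothTransition (n * s)) := by
  have h1 : Continuous (deriv Real.smoothTransition) :=
    (Real.smoothTransition.contDiff (n := 1)).continuous_deriv (by norm_num)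
  exact continuous_const.mul (h1.comp (by fun_prop))

lemma th_deriv_nonneg (n : ℕ) (s : ℝ) : 0 ≤ n * deriv Real.smoothTransition (n * s) :=
  mul_nonneg (Nat.cast_nonneg n) (Real.smoothTransition.monotone.deriv_nonneg)

/-- the set where the first distribution function is larger -/
def EE (μ ν : Measure ℝ) : Set ℝ := {x | 0 < Dlt μ ν x}

lemma measurableSet_EE (μ ν : Measure ℝ) : MeasurableSet (EE μ ν) :=
  measurableSet_lt measurable_const (measurable_Dlt μ ν)

lemma tendsto_th_integral (μ ν ρ : Measure ℝ) [IsFiniteMeasure ρ] :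
    Tendsto (fun n : ℕ => ∫ x, th n (Dlt μ ν x) ∂ρ) atTop (𝓝 (ρ.real (EE μ ν))) := by
  have h1 : ρ.real (EE μ ν) = ∫ x, (Ioi (0:ℝ)).indicator 1 (Dlt μ ν x) ∂ρ := by
    have : (fun x => (Ioi (0:ℝ)).indicator (1 : ℝ → ℝ) (Dlt μ ν x)) =
        (EE μ ν).indicator (1 : ℝ → ℝ) := by
      ext x
      rfl
    rw [this, integral_indicator_one (measurableSet_EE μ ν)]
  rw [h1]
  refine tendsto_integral_of_dominated_convergence (fun _ => 1) ?_ (integrable_const _) ?_ ?_
  · intro n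
    exact ((th_continuous n).measurable.comp (measurable_Dlt μ ν)).aestronglyMeasurable
  · intro n
    exact Eventually.of_forall fun x => th_abs_le n _
  · exact Eventually.of_forall fun x => th_tendsto _

lemma tendsto_th_primitive (s : ℝ) :
    Tendsto (fun n : ℕ => ∫ t in (0:ℝ)..s, th n t) atTop (𝓝 (max s 0)) := by
  have h1 : ∫ t in (0:ℝ)..s, (Ioi (0:ℝ)).indicator (1 : ℝ → ℝ) t = max s 0 := by
    rcases le_total 0 s with hs | hs
    · rw [intervalIntegral.integral_of_le hs, max_eq_left hs,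
        setIntegral_congr_fun (g := fun _ => (1:ℝ)) measurableSet_Ioc]
      · simp [hs]
      · intro t ht
        exact indicator_of_mem (show t ∈ Ioi (0:ℝ) from ht.1) _
    · rw [intervalIntegral.integral_of_ge hs, max_eq_right hs,
        setIntegral_congr_fun (g := fun _ => (0:ℝ)) measurableSet_Ioc]
      · simp
      · intro t ht
        exact indicator_of_notMem (show t ∉ Ioi (0:ℝ) from not_lt.mpr ht.2) _
  rw [← h1]
  refine intervalIntegral.tendsto_integral_filter_of_dominated_convergence (fun _ => 1) ?_ ?_ ?_ ?_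
  · exact Eventually.of_forall fun n => (th_continuous n).aestronglyMeasurable
  · exact Eventually.of_forall fun n => Eventually.of_forall fun x _ => th_abs_le n _
  · exact intervalIntegrable_const
  · exact Eventually.of_forall fun x _ => th_tendsto _

/-- The chain rule for the positive part of `Dlt`, in integrated form. -/
lemma real_EE_inter (hw : 0 < w) (h₁ : HasDens w π₁ μ) (h₂ : HasDens w π₂ ν) {a : ℝ} (ha : 0 ≤ a) :
    ν.real (EE μ ν ∩ Ioi a) = μ.real (EE μ ν ∩ Ioi a) + max (Dlt μ ν a) 0 := by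
  have hr : ∀ ρ : Measure ℝ, (ρ.restrict (Ioi a)).real (EE μ ν) = ρ.real (EE μ ν ∩ Ioi a) := by
    intro ρ
    rw [measureReal_def, Measure.restrict_apply (measurableSet_EE μ ν), ← measureReal_def]
  have l1 := tendsto_th_integral μ ν (μ.restrict (Ioi a))
  have l2 := tendsto_th_integral μ ν (ν.restrict (Ioi a))
  rw [hr] at l1 l2
  have l3 := (tendsto_th_primitive (Dlt μ ν a)).neg
  have l4 := l1.sub l2
  have h3 : ∀ n : ℕ, ∫ x in Ioi a, th n (Dlt μ ν x) ∂μ - ∫ x in Ioi a, th n (Dlt μ ν x) ∂ν =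
      - ∫ t in (0:ℝ)..(Dlt μ ν a), th n t := by
    intro n
    have hΘ : ∀ s, HasDerivAt (fun s => ∫ t in (0:ℝ)..s, th n t) (th n s) s := fun s =>
      intervalIntegral.integral_hasDerivAt_right ((th_continuous n).intervalIntegrable _ _)
        (th_continuous n).stronglyMeasurable.stronglyMeasurableAtFilter (th_continuous n).continuousAt
    exact theta_ftc hw h₁ h₂ hΘ (by simp) (th_continuous n) (th_abs_le n) ha
  have l5 := l4.congr h3
  have := tendsto_nhds_unique l5 l3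
  linarith

lemma key_EE (hw : 0 < w) (hπ₁ : ∀ᵐ y ∂π₁, 0 < y) (hπ₂ : ∀ᵐ y ∂π₂, 0 < y)
    (h₁ : HasDens w π₁ μ) (h₂ : HasDens w π₂ ν) :
    π₂ (EE μ ν) ≤ π₁ (EE μ ν) := by
  have h3 : π₂.real (EE μ ν) ≤ π₁.real (EE μ ν) := by
    refine le_of_tendsto_of_tendsto' (tendsto_th_integral μ ν π₂) (tendsto_th_integral μ ν π₁) ?_
    intro n
    exact key_smooth hw hπ₁ hπ₂ h₁ h₂ (th_hasDerivAt n) (th_deriv_continuous n) (th_deriv_nonneg n)
      (th_abs_le n)
  rw [measureReal_def, measureReal_def] at h3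
  exact (ENNReal.toReal_le_toReal (measure_ne_top _ _) (measure_ne_top _ _)).mp h3


/-- layer cake -/
lemma layer {ρ : Measure ℝ} (hρ : ∀ᵐ x ∂ρ, 0 < x) (S : Set ℝ) (k : ℕ+) :
    ∫⁻ x in S, ENNReal.ofReal (x ^ (k : ℕ)) ∂ρ = ENNReal.ofReal (k : ℕ) *
      ∫⁻ t in Ioi (0:ℝ), ρ.restrict S (Ioi t) * ENNReal.ofReal (t ^ ((k : ℕ) - 1 : ℝ)) := by
  have h1 := lintegral_rpow_eq_lintegral_meas_lt_mul (ρ.restrict S) (f := fun x => x)
    (ae_restrict_of_ae (hρ.mono fun x hx => le_of_lt hx)) (by fun_prop) (p := ((k : ℕ) : ℝ))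
    (by exact_mod_cast k.pos)
  rw [← show ∫⁻ x in S, ENNReal.ofReal (x ^ ((k : ℕ) : ℝ)) ∂ρ =
    ∫⁻ x in S, ENNReal.ofReal (x ^ (k : ℕ)) ∂ρ from by simp_rw [Real.rpow_natCast], h1]
  rfl

lemma restrict_Ioi_real (ρ : Measure ℝ) (S : Set ℝ) (t : ℝ) :
    ρ.restrict S (Ioi t) = ρ (S ∩ Ioi t) := by
  rw [Measure.restrict_apply measurableSet_Ioi, inter_comm]

lemma EE_le (hw : 0 < w) (h₁ : HasDens w π₁ μ) (h₂ : HasDens w π₂ ν) {t : ℝ} (ht : 0 ≤ t) :
    μ.restrict (EE μ ν) (Ioi t) ≤ ν.restrict (EE μ ν) (Ioi t) := by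
  rw [restrict_Ioi_real, restrict_Ioi_real]
  have h3 := real_EE_inter hw h₁ h₂ ht
  rw [measureReal_def, measureReal_def] at h3
  refine (ENNReal.toReal_le_toReal (measure_ne_top _ _) (measure_ne_top _ _)).mp ?_
  rw [h3]
  linarith [le_max_right (Dlt μ ν t) 0]

lemma EE_compl_le (hw : 0 < w) (h₁ : HasDens w π₁ μ) (h₂ : HasDens w π₂ ν) {t : ℝ} (ht : 0 ≤ t) :
    ν.restrict (EE μ ν)ᶜ (Ioi t) ≤ μ.restrict (EE μ ν)ᶜ (Ioi t) := by
  rw [restrict_Ioi_real, restrict_Ioi_real]
  have h3 := real_EE_inter hw h₁ h₂ ht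
  refine (ENNReal.toReal_le_toReal (measure_ne_top _ _) (measure_ne_top _ _)).mp ?_
  rw [← measureReal_def, ← measureReal_def]
  have e1 : μ.real (EE μ ν ∩ Ioi t) + μ.real ((EE μ ν)ᶜ ∩ Ioi t) = μ.real (Ioi t) := by
    rw [inter_comm, inter_comm (EE μ ν)ᶜ]
    exact measureReal_inter_add_sdiff (measurableSet_EE μ ν)
  have e2 : ν.real (EE μ ν ∩ Ioi t) + ν.real ((EE μ ν)ᶜ ∩ Ioi t) = ν.real (Ioi t) := by
    rw [inter_comm, inter_comm (EE μ ν)ᶜ]
    exact measureReal_inter_add_sdiff (measurableSet_EE μ ν)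
  have e3 : μ.real (Ioi t) = 1 - cdf μ t := by
    rw [cdf_eq_real, ← compl_Iic, probReal_compl_eq_one_sub measurableSet_Iic]
  have e4 : ν.real (Ioi t) = 1 - cdf ν t := by
    rw [cdf_eq_real, ← compl_Iic, probReal_compl_eq_one_sub measurableSet_Iic]
  have e5 : Dlt μ ν t = cdf μ t - cdf ν t := rfl
  have e6 := le_max_left (Dlt μ ν t) 0
  linarith


/-- numerical lemma on the four partial moments -/
lemma term_aux {A A' B B' : ℝ} (hA : 0 ≤ A) (hB' : 0 ≤ B') (h1 : A ≤ B) (h2 : B' ≤ A')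
    (hm : 0 < A + A') (hm' : 0 < B + B') : A / (A + A') ≤ B / (B + B') := by
  rw [div_le_div_iff₀ hm hm']
  nlinarith [mul_le_mul h1 h2 hB' (hA.trans h1)]

lemma lintegral_pow_ne_top {ρ : Measure ℝ} {k : ℕ} (hi : Integrable (fun x : ℝ => x ^ k) ρ) (S : Set ℝ) :
    ∫⁻ x in S, ENNReal.ofReal (x ^ k) ∂ρ ≠ ∞ := by
  have h1 := hi.lintegral_lt_top
  exact ((lintegral_mono' Measure.restrict_le_self le_rfl).trans_lt h1).ne

lemma toReal_add_compl {ρ : Measure ℝ} (hρ : ∀ᵐ x ∂ρ, 0 < x) {k : ℕ}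
    (hi : Integrable (fun x : ℝ => x ^ k) ρ) {S : Set ℝ} (hS : MeasurableSet S) :
    (∫⁻ x in S, ENNReal.ofReal (x ^ k) ∂ρ).toReal + (∫⁻ x in Sᶜ, ENNReal.ofReal (x ^ k) ∂ρ).toReal =
      ∫ x, x ^ k ∂ρ := by
  rw [← ENNReal.toReal_add (lintegral_pow_ne_top hi S) (lintegral_pow_ne_top hi Sᶜ),
    lintegral_add_compl _ hS, integral_eq_lintegral_of_nonneg_ae _ hi.aestronglyMeasurable]
  filter_upwards [hρ] with x hx
  exact pow_nonneg hx.le _

lemma setLIntegral_div {ρ : Measure ℝ} {k : ℕ} {m : ℝ} (hm : 0 < m)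
    (hi : Integrable (fun x : ℝ => x ^ k) ρ) (S : Set ℝ) :
    ∫⁻ x in S, ENNReal.ofReal (x ^ k / m) ∂ρ =
      ENNReal.ofReal ((∫⁻ x in S, ENNReal.ofReal (x ^ k) ∂ρ).toReal / m) := by
  rw [div_eq_mul_inv, ENNReal.ofReal_mul' (inv_nonneg.mpr hm.le),
    ENNReal.ofReal_toReal (lintegral_pow_ne_top hi S), ← lintegral_mul_const _ (by fun_prop)]
  congr 1
  ext x
  rw [div_eq_mul_inv, ENNReal.ofReal_mul' (inv_nonneg.mpr hm.le)]

lemma partial_moment_le (hw : 0 < w) (h₁ : HasDens w π₁ μ) (h₂ : HasDens w π₂ ν)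
    (k : ℕ+) (i₂ : Integrable (fun x : ℝ => x ^ (k : ℕ)) ν) :
    (∫⁻ x in EE μ ν, ENNReal.ofReal (x ^ (k : ℕ)) ∂μ).toReal ≤
      (∫⁻ x in EE μ ν, ENNReal.ofReal (x ^ (k : ℕ)) ∂ν).toReal := by
  refine ENNReal.toReal_mono (lintegral_pow_ne_top i₂ _) ?_
  rw [layer h₁.ae_pos, layer h₂.ae_pos]
  gcongr ENNReal.ofReal _ * ?_
  refine setLIntegral_mono' measurableSet_Ioi fun t ht => ?_
  gcongr ?_ * _
  exact EE_le hw h₁ h₂ (le_of_lt ht)

lemma partial_moment_compl_le (hw : 0 < w) (h₁ : HasDens w π₁ μ) (h₂ : HasDens w π₂ ν)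
    (k : ℕ+) (i₁ : Integrable (fun x : ℝ => x ^ (k : ℕ)) μ) :
    (∫⁻ x in (EE μ ν)ᶜ, ENNReal.ofReal (x ^ (k : ℕ)) ∂ν).toReal ≤
      (∫⁻ x in (EE μ ν)ᶜ, ENNReal.ofReal (x ^ (k : ℕ)) ∂μ).toReal := by
  refine ENNReal.toReal_mono (lintegral_pow_ne_top i₁ _) ?_
  rw [layer h₁.ae_pos, layer h₂.ae_pos]
  gcongr ENNReal.ofReal _ * ?_
  refine setLIntegral_mono' measurableSet_Ioi fun t ht => ?_
  gcongr ?_ * _
  exact EE_compl_le hw h₁ h₂ (le_of_lt ht)

lemma moment_pos {ρ : Measure ℝ} [IsProbabilityMeasure ρ] (hρ : ∀ᵐ x ∂ρ, 0 < x) {k : ℕ}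
    (hi : Integrable (fun x : ℝ => x ^ k) ρ) : 0 < ∫ x, x ^ k ∂ρ := by
  have h0 : 0 ≤ᵐ[ρ] fun x : ℝ => x ^ k := hρ.mono fun x hx => pow_nonneg (le_of_lt hx) k
  refine lt_of_le_of_ne (integral_nonneg_of_ae h0) fun h1 => ?_
  have h2 := (integral_eq_zero_iff_of_nonneg_ae h0 hi).mp h1.symm
  have h3 : ∀ᵐ x ∂ρ, False := by
    filter_upwards [h2, hρ] with x hx hx0
    exact (pow_pos hx0 k).ne' hx
  rw [ae_iff] at h3
  simp at h3

lemma term_le (hw : 0 < w) (h₁ : HasDens w π₁ μ) (h₂ : HasDens w π₂ ν)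
    (k : ℕ+) (i₁ : Integrable (fun x : ℝ => x ^ (k : ℕ)) μ)
    (i₂ : Integrable (fun x : ℝ => x ^ (k : ℕ)) ν) :
    ∫⁻ x in EE μ ν, ENNReal.ofReal (x ^ (k : ℕ) / ∫ y, y ^ (k : ℕ) ∂μ) ∂μ ≤
      ∫⁻ x in EE μ ν, ENNReal.ofReal (x ^ (k : ℕ) / ∫ y, y ^ (k : ℕ) ∂ν) ∂ν := by
  have hm1 := moment_pos h₁.ae_pos i₁
  have hm2 := moment_pos h₂.ae_pos i₂
  rw [setLIntegral_div hm1 i₁, setLIntegral_div hm2 i₂]
  refine ENNReal.ofReal_le_ofReal ?_
  have e1 := toReal_add_compl h₁.ae_pos i₁ (measurableSet_EE μ ν)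
  have e2 := toReal_add_compl h₂.ae_pos i₂ (measurableSet_EE μ ν)
  rw [← e1] at hm1 ⊢
  rw [← e2] at hm2 ⊢
  exact term_aux ENNReal.toReal_nonneg ENNReal.toReal_nonneg (partial_moment_le hw h₁ h₂ k i₂)
    (partial_moment_compl_le hw h₁ h₂ k i₁) hm1 hm2

/-- If the partial moments over `EE` agree, then `Dlt ≤ 0`. -/
lemma Dlt_nonpos_of_eq (hw : 0 < w) (h₁ : HasDens w π₁ μ) (h₂ : HasDens w π₂ ν)
    (k : ℕ+) (i₂ : Integrable (fun x : ℝ => x ^ (k : ℕ)) ν)
    (he : ∫⁻ x in EE μ ν, ENNReal.ofReal (x ^ (k : ℕ)) ∂μ =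
      ∫⁻ x in EE μ ν, ENNReal.ofReal (x ^ (k : ℕ)) ∂ν) (x : ℝ) : Dlt μ ν x ≤ 0 := by
  have hk : ENNReal.ofReal (k : ℕ) ≠ 0 := by
    have := k.pos
    simp
  have hfin := lintegral_pow_ne_top i₂ (EE μ ν)
  have hfin1 := hfin
  rw [← he] at hfin1
  rw [layer h₁.ae_pos] at hfin1
  rw [layer h₁.ae_pos, layer h₂.ae_pos] at he
  have he' := (ENNReal.mul_right_inj hk ENNReal.ofReal_ne_top).mp he
  have hfin2 : ∫⁻ t in Ioi (0:ℝ), μ.restrict (EE μ ν) (Ioi t) *
      ENNReal.ofReal (t ^ ((k : ℕ) - 1 : ℝ)) ≠ ∞ := by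
    intro h
    rw [h, ENNReal.mul_top hk] at hfin1
    exact hfin1 rfl
  have hle : (fun t => μ.restrict (EE μ ν) (Ioi t) * ENNReal.ofReal (t ^ ((k : ℕ) - 1 : ℝ)))
      ≤ᵐ[volume.restrict (Ioi (0:ℝ))]
      (fun t => ν.restrict (EE μ ν) (Ioi t) * ENNReal.ofReal (t ^ ((k : ℕ) - 1 : ℝ))) := by
    filter_upwards [ae_restrict_mem measurableSet_Ioi] with t ht
    gcongr ?_ * _
    exact EE_le hw h₁ h₂ (le_of_lt ht)
  have hmeas : Measurable fun t : ℝ => ν.restrict (EE μ ν) (Ioi t) := by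
    apply Antitone.measurable
    intro s t hst
    exact measure_mono (Ioi_subset_Ioi hst)
  have hae := ae_eq_of_ae_le_of_lintegral_le hle hfin2 (by fun_prop) he'.ge
  have hae2 : ∀ᵐ t ∂(volume.restrict (Ioi (0:ℝ))), Dlt μ ν t ≤ 0 := by
    filter_upwards [hae, ae_restrict_mem measurableSet_Ioi] with t ht ht0
    have ht0' : (0:ℝ) < t := ht0
    have h3 : ENNReal.ofReal (t ^ ((k : ℕ) - 1 : ℝ)) ≠ 0 := by
      have : 0 < t ^ ((k : ℕ) - 1 : ℝ) := Real.rpow_pos_of_pos ht0' _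
      simpa using this
    have h4 := (ENNReal.mul_left_inj h3 ENNReal.ofReal_ne_top).mp ht
    rw [restrict_Ioi_real, restrict_Ioi_real] at h4
    have h5 := real_EE_inter hw h₁ h₂ ht0'.le
    rw [measureReal_def, measureReal_def, h4] at h5
    have := le_max_left (Dlt μ ν t) 0
    linarith
  -- openness
  have hcont : ContinuousOn (Dlt μ ν) (Ioi 0) := fun t ht =>
    (hasDerivAt_Dlt hw h₁ h₂ ht).continuousAt.continuousWithinAt
  have hopen : IsOpen (Ioi (0:ℝ) ∩ (Dlt μ ν) ⁻¹' (Ioi 0)) :=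
    hcont.isOpen_inter_preimage isOpen_Ioi isOpen_Ioi
  have hnull : volume (Ioi (0:ℝ) ∩ (Dlt μ ν) ⁻¹' (Ioi 0)) = 0 := by
    rw [ae_iff, Measure.restrict_apply' measurableSet_Ioi] at hae2
    rw [← hae2]
    congr 1
    ext t
    simp [and_comm]
  have hempty := hopen.eq_empty_of_measure_zero hnull
  by_contra hx
  push Not at hx
  rcases le_or_gt x 0 with hx0 | hx0
  · have e1 : cdf μ x = 0 := by
      rw [cdf_eq_real, measureReal_def, measure_mono_null (Iic_subset_Iic.mpr hx0) h₁.pos]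
      rfl
    have e2 : cdf ν x = 0 := by
      rw [cdf_eq_real, measureReal_def, measure_mono_null (Iic_subset_Iic.mpr hx0) h₂.pos]
      rfl
    unfold Dlt at hx
    rw [e1, e2] at hx
    simp at hx
  · have : x ∈ Ioi (0:ℝ) ∩ (Dlt μ ν) ⁻¹' (Ioi 0) := ⟨hx0, hx⟩
    rw [hempty] at this
    exact this

end two


section sol

variable {w : ℝ} {ψ : PMF ℕ+} {μ ν : Measure ℝ}

lemma powerBias_apply (ψ : PMF ℕ+) (μ : Measure ℝ) {S : Set ℝ} (hS : MeasurableSet S) :
    powerBias ψ μ S = ∑' k : ℕ+, ψ k *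
      ∫⁻ x in S, ENNReal.ofReal (x ^ (k : ℕ) / ∫ y, y ^ (k : ℕ) ∂μ) ∂μ := by
  unfold powerBias
  rw [Measure.sum_apply _ hS]
  congr 1
  ext k
  rw [Measure.smul_apply, withDensity_apply _ hS, smul_eq_mul]

lemma powerBias_ac (ψ : PMF ℕ+) (μ : Measure ℝ) : powerBias ψ μ ≪ μ := by
  unfold powerBias
  refine Measure.absolutelyContinuous_sum_left fun k => ?_
  exact (Measure.smul_absolutelyContinuous).trans (withDensity_absolutelyContinuous _ _)

lemma lintegral_term {μ : Measure ℝ} [IsProbabilityMeasure μ] (hpos : ∀ᵐ x ∂μ, 0 < x) {k : ℕ}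
    (hi : Integrable (fun x : ℝ => x ^ k) μ) :
    ∫⁻ x, ENNReal.ofReal (x ^ k / ∫ y, y ^ k ∂μ) ∂μ = 1 := by
  have hm := moment_pos hpos hi
  have h1 := setLIntegral_div hm hi univ
  rw [Measure.restrict_univ] at h1
  rw [h1, ← integral_eq_lintegral_of_nonneg_ae (hpos.mono fun x hx => pow_nonneg (le_of_lt hx) k)
    hi.aestronglyMeasurable, div_self hm.ne', ENNReal.ofReal_one]

lemma IsSolution.isProb (h : IsSolution w ψ μ) : IsProbabilityMeasure (powerBias ψ μ) := by
  have := h.prob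
  constructor
  rw [powerBias_apply ψ μ MeasurableSet.univ, ← ψ.tsum_coe]
  congr 1
  ext k
  rw [Measure.restrict_univ]
  by_cases hk : ψ k = 0
  · rw [hk, zero_mul]
  · rw [lintegral_term h.pos (h.mom k hk), mul_one]

lemma IsSolution.pos' (h : IsSolution w ψ μ) : ∀ᵐ y ∂(powerBias ψ μ), 0 < y :=
  (powerBias_ac ψ μ) h.pos

lemma IsSolution.hasDens (hw : 0 < w) (h : IsSolution w ψ μ) : HasDens w (powerBias ψ μ) μ := by
  have := h.isProb
  unfold HasDens
  rw [← law_eq hw _ h.pos']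
  exact h.fixed

lemma IsSolution.nullSing (hw : 0 < w) (h : IsSolution w ψ μ) :
    NullSingletonClass (powerBias ψ μ) := by
  constructor
  intro x
  apply powerBias_ac ψ μ
  rw [h.hasDens hw]
  apply withDensity_absolutelyContinuous
  rw [Measure.restrict_apply (measurableSet_singleton x)]
  exact measure_mono_null inter_subset_left (measure_singleton x)

lemma Dlt_nonpos (hw : 0 < w) (h₁ : IsSolution w ψ μ) (h₂ : IsSolution w ψ ν) {k₀ : ℕ+}
    (hk₀ : ψ k₀ ≠ 0) (hm : ∫ y, y ^ (k₀ : ℕ) ∂μ = ∫ y, y ^ (k₀ : ℕ) ∂ν) (x : ℝ) :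
    Dlt μ ν x ≤ 0 := by
  have := h₁.prob
  have := h₂.prob
  have := h₁.isProb
  have := h₂.isProb
  have := h₁.nullSing hw
  have := h₂.nullSing hw
  have d₁ := h₁.hasDens hw
  have d₂ := h₂.hasDens hw
  have key := key_EE hw h₁.pos' h₂.pos' d₁ d₂
  have hfin : powerBias ψ μ (EE μ ν) ≠ ∞ := measure_ne_top _ _
  rw [powerBias_apply _ _ (measurableSet_EE μ ν)] at hfin
  rw [powerBias_apply _ _ (measurableSet_EE μ ν), powerBias_apply _ _ (measurableSet_EE μ ν)] at key
  have hle : ∀ k : ℕ+, ψ k * ∫⁻ x in EE μ ν, ENNReal.ofReal (x ^ (k : ℕ) / ∫ y, y ^ (k : ℕ) ∂μ) ∂μ ≤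
      ψ k * ∫⁻ x in EE μ ν, ENNReal.ofReal (x ^ (k : ℕ) / ∫ y, y ^ (k : ℕ) ∂ν) ∂ν := by
    intro k
    by_cases hk : ψ k = 0
    · rw [hk, zero_mul, zero_mul]
    · gcongr ψ k * ?_
      exact term_le hw d₁ d₂ k (h₁.mom k hk) (h₂.mom k hk)
  have hge : ψ k₀ * ∫⁻ x in EE μ ν, ENNReal.ofReal (x ^ (k₀ : ℕ) / ∫ y, y ^ (k₀ : ℕ) ∂ν) ∂ν ≤
      ψ k₀ * ∫⁻ x in EE μ ν, ENNReal.ofReal (x ^ (k₀ : ℕ) / ∫ y, y ^ (k₀ : ℕ) ∂μ) ∂μ := by
    by_contra hlt
    push Not at hlt
    exact absurd key (not_le.mpr (ENNReal.tsum_lt_tsum hfin hle hlt))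
  have heq := le_antisymm (hle k₀) hge
  rw [ENNReal.mul_right_inj hk₀ (ψ.apply_ne_top k₀)] at heq
  have i₁ := h₁.mom k₀ hk₀
  have i₂ := h₂.mom k₀ hk₀
  have m₁ := moment_pos h₁.pos i₁
  have m₂ := moment_pos h₂.pos i₂
  rw [setLIntegral_div m₁ i₁, setLIntegral_div m₂ i₂, hm,
    ENNReal.ofReal_eq_ofReal_iff (by positivity) (by positivity), div_left_inj' m₂.ne',
    ENNReal.toReal_eq_toReal_iff' (lintegral_pow_ne_top i₁ _) (lintegral_pow_ne_top i₂ _)] at heq
  exact Dlt_nonpos_of_eq hw d₁ d₂ k₀ i₂ heq x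

lemma powerBias_map {c : ℝ} (hc : 0 < c) (ψ : PMF ℕ+) (μ : Measure ℝ) :
    powerBias ψ (μ.map (fun x => c * x)) = (powerBias ψ μ).map (fun x => c * x) := by
  unfold powerBias
  rw [Measure.map_sum (by fun_prop)]
  congr 1
  ext1 k
  rw [Measure.map_smul]
  congr 1
  refine Measure.ext_of_lintegral _ fun φ hφ => ?_
  rw [lintegral_map hφ (by fun_prop), lintegral_withDensity_eq_lintegral_mul _ (by fun_prop) hφ,
    lintegral_withDensity_eq_lintegral_mul _ (by fun_prop) (by fun_prop),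
    lintegral_map (by fun_prop) (by fun_prop)]
  congr 1
  ext x
  simp only [Pi.mul_apply]
  congr 2
  rw [integral_map (by fun_prop) (by fun_prop)]
  simp_rw [mul_pow]
  rw [integral_const_mul, mul_div_mul_left _ _ (pow_pos hc _).ne']

lemma IsSolution.scale {c : ℝ} (hc : 0 < c) (h : IsSolution w ψ μ) (hw : 0 < w) :
    IsSolution w ψ (μ.map (fun x => c * x)) := by
  have := h.prob
  have := h.isProb
  have := isProbabilityMeasureBeta hw one_pos
  refine ⟨Measure.isProbabilityMeasure_map (by fun_prop), ?_, ?_, ?_⟩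
  · rw [ae_map_iff (by fun_prop) measurableSet_Ioi]
    filter_upwards [h.pos] with x hx
    positivity
  · intro k hk
    rw [integrable_map_measure (by fun_prop) (by fun_prop)]
    have := (h.mom k hk).const_mul (c ^ (k : ℕ))
    refine this.congr (Eventually.of_forall fun x => ?_)
    simp [mul_pow]
  · rw [powerBias_map hc]
    conv_lhs => rw [h.fixed]
    rw [Measure.map_map (by fun_prop) (by fun_prop)]
    have h1 : (betaMeasure w 1).prod ((powerBias ψ μ).map (fun x => c * x)) =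
        ((betaMeasure w 1).prod (powerBias ψ μ)).map (Prod.map id (fun x => c * x)) := by
      rw [← Measure.map_prod_map _ _ measurable_id (by fun_prop), Measure.map_id]
    rw [h1, Measure.map_map (by fun_prop) (by fun_prop)]
    congr 1
    ext q
    simp only [Function.comp, Prod.map, id]
    ring

end sol

/-- Any two solutions of the power-bias fixed point equation for `(w, ψ)` are scaled versions of
each other. -/
theorem result (w : ℝ) (hw : 0 < w) (ψ : PMF ℕ+) (μ ν : Measure ℝ)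
    (hμ : IsSolution w ψ μ) (hν : IsSolution w ψ ν) :
    ∃ c : ℝ, 0 < c ∧ ν = μ.map (fun x => c * x) := by
  obtain ⟨k₀, hk₀⟩ := ψ.support_nonempty
  rw [PMF.mem_support_iff] at hk₀
  have := hμ.prob
  have := hν.prob
  have m₁ := moment_pos hμ.pos (hμ.mom k₀ hk₀)
  have m₂ := moment_pos hν.pos (hν.mom k₀ hk₀)
  set m := ∫ y, y ^ (k₀ : ℕ) ∂μ with hm
  set m' := ∫ y, y ^ (k₀ : ℕ) ∂ν with hm'
  have hk : ((k₀ : ℕ) : ℝ) ≠ 0 := by
    have := k₀.pos
    positivity
  refine ⟨(m' / m) ^ (1 / ((k₀ : ℕ) : ℝ)), by positivity, ?_⟩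
  set c := (m' / m) ^ (1 / ((k₀ : ℕ) : ℝ)) with hcdef
  have hc : 0 < c := by positivity
  have hck : c ^ (k₀ : ℕ) = m' / m := by
    rw [← Real.rpow_natCast, hcdef, ← Real.rpow_mul (by positivity), one_div, inv_mul_cancel₀ hk,
      Real.rpow_one]
  have hs := hμ.scale hc hw
  have := hs.prob
  have hmom : ∫ y, y ^ (k₀ : ℕ) ∂(μ.map (fun x => c * x)) = m' := by
    rw [integral_map (by fun_prop) (by fun_prop)]
    simp_rw [mul_pow]
    rw [integral_const_mul, ← hm, hck]
    field_simp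
  have d1 := Dlt_nonpos hw hs hν hk₀ hmom
  have d2 := Dlt_nonpos hw hν hs hk₀ hmom.symm
  symm
  rw [← Measure.cdf_eq_iff]
  ext x
  have e1 := d1 x
  have e2 := d2 x
  unfold Dlt at e1 e2
  linarith

end Pool.Agent.Results.MP_ec0ea5_pr.Uniqueness
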